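import Mathlib

set_option autoImplicit false

namespace Pool.Agent.Results.MP_d719e6_nt.CountingBounds

open Finset

/-- `p m`: the number of partitions of `m`. A partition is given by the multiplicities `f i` of its
parts `i + 1` (`i < m`), so the condition is `∑ (i + 1) f i = m`. -/
def p (m : ℕ) : ℕ :=
  (Finset.univ.filter
    (fun f : Fin m → Fin (m + 1) => ∑ i : Fin m, ((i : ℕ) + 1) * (f i : ℕ) = m)).card

/-- the same number for `k` parts and multiplicities `< B`, by recursion -/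
def c (B : ℕ) : ℕ → ℕ → ℕ
  | 0, n => if n = 0 then 1 else 0
  | k + 1, n => ∑ j : Fin B, if (k + 1) * (j : ℕ) ≤ n then c B k (n - (k + 1) * j) else 0

theorem card_eq (B : ℕ) : ∀ k n : ℕ, (Finset.univ.filter
    (fun f : Fin k → Fin B => ∑ i : Fin k, ((i : ℕ) + 1) * (f i : ℕ) = n)).card = c B k n := by
  intro k
  induction k with
  | zero =>
    intro n
    by_cases h : n = 0
    · subst h
      simp [c]
    · have h' : ¬ (0 = n) := fun e => h e.symm
      simp [c, h, h']
  | succ k ih =>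
    intro n
    rw [c, Finset.card_filter, ← (Fin.snocEquiv (fun _ : Fin (k + 1) => Fin B)).sum_comp,
      Fintype.sum_prod_type]
    refine Finset.sum_congr rfl (fun j _ => ?_)
    by_cases hj : (k + 1) * (j : ℕ) ≤ n
    · rw [if_pos hj, ← ih, Finset.card_filter]
      refine Finset.sum_congr rfl (fun f _ => ?_)
      have e : ∑ i : Fin (k + 1), ((i : ℕ) + 1) *
          (((Fin.snocEquiv (fun _ : Fin (k + 1) => Fin B)) (j, f) i : Fin B) : ℕ) =
          ∑ i : Fin k, ((i : ℕ) + 1) * (f i : ℕ) + (k + 1) * (j : ℕ) := by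
        rw [Fin.sum_univ_castSucc]
        simp [Fin.snocEquiv]
      rw [e]
      congr 1
      apply propext
      omega
    · rw [if_neg hj]
      apply Finset.sum_eq_zero
      intro f _
      rw [if_neg]
      have e : ∑ i : Fin (k + 1), ((i : ℕ) + 1) *
          (((Fin.snocEquiv (fun _ : Fin (k + 1) => Fin B)) (j, f) i : Fin B) : ℕ) =
          ∑ i : Fin k, ((i : ℕ) + 1) * (f i : ℕ) + (k + 1) * (j : ℕ) := by
        rw [Fin.sum_univ_castSucc]
        simp [Fin.snocEquiv]
      rw [e]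
      omega

theorem p_eq (m : ℕ) : p m = c (m + 1) m m := card_eq (m + 1) m m

theorem p1 : p 1 = 1 := by rw [p_eq]; decide +kernel
theorem p2 : p 2 = 2 := by rw [p_eq]; decide +kernel
theorem p3 : p 3 = 3 := by rw [p_eq]; decide +kernel
theorem p4 : p 4 = 5 := by rw [p_eq]; decide +kernel
theorem p5 : p 5 = 7 := by rw [p_eq]; decide +kernel
theorem p6 : p 6 = 11 := by rw [p_eq]; decide +kernel
theorem p7 : p 7 = 15 := by rw [p_eq]; decide +kernel
theorem p8 : p 8 = 22 := by rw [p_eq]; decide +kernel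
theorem p9 : p 9 = 30 := by rw [p_eq]; decide +kernel
theorem p10 : p 10 = 42 := by rw [p_eq]; decide +kernel
theorem p14 : p 14 = 135 := by rw [p_eq]; decide +kernel

/-- entry `j` of line `a` of the table `T` -/
def g (T : List (List ℕ)) (a j : ℕ) : ℕ := (T.getD a []).getD j 0

/-- table for Q1: for each class modulo 210 which is prime to 210 four numbers `m ≤ 9` with
`2 p(m) + 1` prime -/
def T1 : List (List ℕ) :=
  [[], [1, 2, 3, 4], [], [], [], [], [], [], [], [], [], [1, 2, 3, 4], [], [3, 4, 6, 7], [], [],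
  [], [1, 4, 6, 7], [], [3, 6, 7, 9], [], [], [], [4, 6, 7, 9], [], [], [], [], [], [2, 4, 6, 7],
  [], [3, 6, 7, 9], [], [], [], [], [], [2, 4, 6, 7], [], [], [], [1, 4, 6, 7], [], [3, 6, 7, 9],
  [], [], [], [4, 6, 7, 9], [], [], [], [], [], [2, 4, 6, 7], [], [], [], [], [], [2, 3, 4, 6],
  [], [3, 6, 7, 9], [], [], [], [], [], [2, 4, 6, 7], [], [], [], [1, 4, 6, 7], [], [3, 6, 7, 9],
  [], [], [], [], [], [2, 4, 6, 7], [], [], [], [1, 4, 6, 7], [], [], [], [], [], [2, 3, 4, 6],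
  [], [], [], [], [], [], [], [1, 2, 3, 4], [], [], [], [1, 2, 3, 4], [], [3, 4, 6, 7], [], [],
  [], [1, 4, 6, 7], [], [3, 6, 7, 9], [], [], [], [4, 6, 7, 9], [], [], [], [], [], [], [], [2, 3,
  4, 6], [], [], [], [], [], [1, 2, 3, 4], [], [], [], [1, 2, 3, 4], [], [], [], [], [], [1, 2, 3,
  4], [], [3, 4, 6, 7], [], [], [], [1, 4, 6, 7], [], [], [], [], [], [2, 4, 6, 7], [], [1, 3, 6,
  9], [], [], [], [], [], [1, 2, 4, 6], [], [], [], [], [], [1, 2, 3, 4], [], [], [], [1, 2, 4,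
  6], [], [1, 3, 7, 9], [], [], [], [1, 2, 4, 6], [], [], [], [], [], [1, 2, 6, 7], [], [1, 2, 3,
  6], [], [], [], [], [], [1, 2, 3, 4], [], [], [], [1, 2, 4, 6], [], [1, 3, 6, 9], [], [], [],
  [1, 6, 7, 9], [], [1, 2, 6, 9], [], [], [], [], [], [], [], [], [], [1, 2, 7, 9]]

/-- table for Q2: four numbers `m ≤ 14` with `2 p(m) - 1` prime -/
def T2 : List (List ℕ) :=
  [[], [5, 7, 9, 10], [], [], [], [], [], [], [], [], [], [2, 3, 5, 7], [], [2, 7, 9, 10], [], [],
  [], [2, 7, 8, 9], [], [2, 8, 9, 10], [], [], [], [7, 8, 9, 14], [], [], [], [], [], [5, 7, 9,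
  10], [], [2, 9, 10, 14], [], [], [], [], [], [5, 7, 9, 10], [], [], [], [2, 7, 8, 9], [], [8, 9,
  10, 14], [], [], [], [7, 8, 9, 14], [], [], [], [], [], [5, 7, 9, 10], [], [], [], [], [], [5,
  7, 8, 9], [], [8, 9, 10, 14], [], [], [], [], [], [5, 7, 9, 10], [], [], [], [2, 7, 8, 9], [],
  [8, 9, 10, 14], [], [], [], [], [], [5, 7, 9, 10], [], [], [], [2, 7, 8, 9], [], [], [], [], [],
  [5, 7, 8, 9], [], [], [], [], [], [], [], [2, 3, 5, 7], [], [], [], [2, 5, 7, 8], [], [2, 7, 9,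
  10], [], [], [], [7, 8, 9, 10], [], [2, 9, 10, 14], [], [], [], [7, 8, 9, 14], [], [], [], [],
  [], [], [], [3, 5, 7, 8], [], [], [], [], [], [3, 5, 7, 8], [], [], [], [2, 5, 7, 8], [], [],
  [], [], [], [3, 5, 7, 8], [], [2, 7, 8, 9], [], [], [], [7, 8, 9, 10], [], [], [], [], [], [7,
  8, 9, 14], [], [3, 8, 9, 10], [], [], [], [], [], [5, 7, 9, 10], [], [], [], [], [], [2, 5, 9,
  10], [], [], [], [2, 3, 7, 9], [], [2, 8, 9, 10], [], [], [], [2, 7, 9, 14], [], [], [], [], [],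
  [2, 7, 9, 10], [], [2, 3, 9, 10], [], [], [], [], [], [5, 7, 9, 10], [], [], [], [2, 7, 8, 9],
  [], [2, 9, 10, 14], [], [], [], [7, 8, 9, 14], [], [2, 9, 10, 14], [], [], [], [], [], [], [],
  [], [], [3, 5, 8, 10]]

/-- the inverse of the table `T1` -/
def R1 : List (ℕ × ℕ) :=
  [(209, 0), (209, 1), (1, 0), (1, 1), (1, 2), (1, 3), (209, 2), (0, 0), (209, 3), (0, 0), (0, 0),
  (0, 0), (11, 0), (11, 1), (11, 2), (11, 3), (13, 0), (13, 1), (17, 0), (13, 2), (13, 3), (17,
  1), (19, 0), (17, 2), (17, 3), (19, 1), (19, 2), (23, 0), (19, 3), (23, 1), (23, 2), (29, 0),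
  (23, 3), (29, 1), (31, 0), (29, 2), (29, 3), (31, 1), (31, 2), (37, 0), (31, 3), (37, 1), (41,
  0), (37, 2), (37, 3), (41, 1), (43, 0), (41, 2), (41, 3), (43, 1), (43, 2), (47, 0), (43, 3),
  (47, 1), (47, 2), (53, 0), (47, 3), (53, 1), (0, 0), (53, 2), (53, 3), (59, 0), (59, 1), (59,
  2), (61, 0), (59, 3), (0, 0), (61, 1), (61, 2), (67, 0), (61, 3), (67, 1), (71, 0), (67, 2),
  (67, 3), (71, 1), (73, 0), (71, 2), (71, 3), (73, 1), (73, 2), (79, 0), (73, 3), (79, 1), (83,
  0), (79, 2), (79, 3), (83, 1), (0, 0), (83, 2), (83, 3), (89, 0), (89, 1), (89, 2), (0, 0), (89,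
  3), (0, 0), (0, 0), (97, 0), (97, 1), (97, 2), (97, 3), (101, 0), (101, 1), (101, 2), (101, 3),
  (103, 0), (103, 1), (107, 0), (103, 2), (103, 3), (107, 1), (109, 0), (107, 2), (107, 3), (109,
  1), (109, 2), (113, 0), (109, 3), (113, 1), (113, 2), (0, 0), (113, 3), (121, 0), (121, 1),
  (121, 2), (0, 0), (121, 3), (127, 0), (127, 1), (127, 2), (127, 3), (131, 0), (131, 1), (131,
  2), (131, 3), (0, 0), (0, 0), (137, 0), (137, 1), (137, 2), (137, 3), (139, 0), (139, 1), (143,
  0), (139, 2), (139, 3), (143, 1), (0, 0), (143, 2), (143, 3), (149, 0), (151, 0), (149, 1),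
  (151, 1), (149, 2), (149, 3), (151, 2), (157, 0), (157, 1), (151, 3), (157, 2), (0, 0), (157,
  3), (163, 0), (163, 1), (163, 2), (163, 3), (167, 0), (167, 1), (169, 0), (167, 2), (169, 1),
  (167, 3), (173, 0), (173, 1), (169, 2), (173, 2), (169, 3), (173, 3), (179, 0), (179, 1), (181,
  0), (181, 1), (181, 2), (179, 2), (179, 3), (181, 3), (187, 0), (187, 1), (187, 2), (187, 3),
  (191, 0), (191, 1), (193, 0), (191, 2), (193, 1), (191, 3), (197, 0), (193, 2), (199, 0), (199,
  1), (193, 3), (197, 1), (197, 2), (199, 2), (197, 3), (0, 0), (199, 3), (0, 0)]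

/-- the inverse of the table `T2` -/
def R2 : List (ℕ × ℕ) :=
  [(0, 0), (197, 3), (209, 0), (199, 3), (209, 1), (0, 0), (1, 0), (209, 2), (1, 1), (209, 3), (1,
  2), (1, 3), (0, 0), (11, 0), (11, 1), (13, 0), (11, 2), (0, 0), (11, 3), (17, 0), (13, 1), (19,
  0), (13, 2), (13, 3), (17, 1), (17, 2), (17, 3), (19, 1), (19, 2), (19, 3), (23, 0), (23, 1),
  (23, 2), (31, 0), (29, 0), (0, 0), (29, 1), (23, 3), (29, 2), (29, 3), (31, 1), (31, 2), (37,
  0), (41, 0), (37, 1), (31, 3), (37, 2), (37, 3), (41, 1), (41, 2), (41, 3), (43, 0), (43, 1),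
  (43, 2), (47, 0), (47, 1), (47, 2), (43, 3), (53, 0), (0, 0), (53, 1), (47, 3), (53, 2), (53,
  3), (59, 0), (0, 0), (59, 1), (59, 2), (59, 3), (61, 0), (61, 1), (61, 2), (67, 0), (71, 0),
  (67, 1), (61, 3), (67, 2), (67, 3), (71, 1), (71, 2), (71, 3), (73, 0), (73, 1), (73, 2), (79,
  0), (83, 0), (79, 1), (73, 3), (79, 2), (79, 3), (83, 1), (83, 2), (83, 3), (0, 0), (89, 0), (0,
  0), (89, 1), (89, 2), (89, 3), (97, 0), (97, 1), (0, 0), (97, 2), (101, 0), (97, 3), (103, 0),
  (101, 1), (0, 0), (101, 2), (101, 3), (103, 1), (109, 0), (103, 2), (103, 3), (107, 0), (107,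
  1), (107, 2), (107, 3), (109, 1), (109, 2), (113, 0), (113, 1), (113, 2), (109, 3), (121, 0),
  (0, 0), (121, 1), (113, 3), (121, 2), (121, 3), (127, 0), (0, 0), (127, 1), (131, 0), (127, 2),
  (127, 3), (131, 1), (0, 0), (131, 2), (131, 3), (137, 0), (139, 0), (137, 1), (0, 0), (137, 2),
  (137, 3), (139, 1), (139, 2), (139, 3), (0, 0), (143, 0), (143, 1), (143, 2), (143, 3), (151,
  0), (0, 0), (149, 0), (149, 1), (149, 2), (151, 1), (151, 2), (151, 3), (157, 0), (149, 3),
  (157, 1), (163, 0), (157, 2), (157, 3), (163, 1), (167, 0), (167, 1), (169, 0), (163, 2), (163,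
  3), (167, 2), (173, 0), (167, 3), (169, 1), (169, 2), (169, 3), (173, 1), (179, 0), (173, 2),
  (181, 0), (181, 1), (0, 0), (179, 1), (173, 3), (179, 2), (179, 3), (181, 2), (181, 3), (187,
  0), (191, 0), (187, 1), (193, 0), (187, 2), (187, 3), (191, 1), (191, 2), (191, 3), (199, 0),
  (193, 1), (193, 2), (197, 0), (197, 1), (197, 2), (193, 3), (199, 1), (199, 2)]

/-- The numbers `a + m`, `m` in the line of `T` for the class of `a`, are in different classes. -/
def Ok (T : List (List ℕ)) (R : List (ℕ × ℕ)) (M : List ℕ) : Prop :=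
  ∀ a < 210, a.gcd 210 = 1 → ∀ j < 4, R.getD ((a + g T a j) % 210) (0, 0) = (a, j) ∧ g T a j ∈ M

instance (T : List (List ℕ)) (R : List (ℕ × ℕ)) (M : List ℕ) : Decidable (Ok T R M) := by
  unfold Ok
  infer_instance

theorem ok1 : Ok T1 R1 [1, 2, 3, 4, 6, 7, 9] := by decide +kernel
theorem ok2 : Ok T2 R2 [2, 3, 5, 7, 8, 9, 10, 14] := by decide +kernel

theorem gcd_one {a : ℕ} (ha : a.Prime) (h : 11 ≤ a) : (a % 210).gcd 210 = 1 := by
  rw [← Nat.gcd_rec, Nat.gcd_comm]
  refine (Nat.Prime.coprime_iff_not_dvd ha).2 (fun hd => ?_)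
  have e : (210 : ℕ) = 2 * 3 * 5 * 7 := by norm_num
  rw [e] at hd
  rcases (Nat.Prime.dvd_mul ha).1 hd with hd | hd
  · rcases (Nat.Prime.dvd_mul ha).1 hd with hd | hd
    · rcases (Nat.Prime.dvd_mul ha).1 hd with hd | hd
      · have := Nat.le_of_dvd (by norm_num) hd
        omega
      · have := Nat.le_of_dvd (by norm_num) hd
        omega
    · have := Nat.le_of_dvd (by norm_num) hd
      omega
  · have := Nat.le_of_dvd (by norm_num) hd
    omega

open Classical in
theorem lower (T : List (List ℕ)) (R : List (ℕ × ℕ)) (M : List ℕ) (hok : Ok T R M)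
    (hM : ∀ m ∈ M, m ≤ 14) (Gd : ℕ → Prop) (hG : ∀ q m : ℕ, q.Prime → m ∈ M → Gd (q + m)) (x : ℕ) :
    4 * Nat.primeCounting x ≤ ((range (x + 1)).filter (fun n => Gd n)).card + 72 := by
  have hpi : Nat.primeCounting x = ((range (x + 1)).filter Nat.Prime).card := by
    rw [Nat.primeCounting, Nat.primeCounting', Nat.count_eq_card_filter_range]
  rw [hpi]
  set P := (range (x + 1 - 14)).filter (fun a => a.Prime ∧ 11 ≤ a) with hPdef
  have hP : ∀ a ∈ P, a.Prime ∧ 11 ≤ a := fun a ha => (Finset.mem_filter.1 ha).2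
  have h1 : ((range (x + 1)).filter Nat.Prime).card ≤ P.card + 18 := by
    have hsub : (range (x + 1)).filter Nat.Prime ⊆
        P ∪ (({2, 3, 5, 7} : Finset ℕ) ∪ Finset.Ico (x + 1 - 14) (x + 1)) := by
      intro a ha
      rw [Finset.mem_filter, Finset.mem_range] at ha
      rw [Finset.mem_union, Finset.mem_union]
      by_cases h5 : 11 ≤ a
      · by_cases hx : a < x + 1 - 14
        · left
          rw [hPdef, Finset.mem_filter, Finset.mem_range]
          exact ⟨hx, ha.2, h5⟩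
        · right; right
          rw [Finset.mem_Ico]
          omega
      · right; left
        have h2 := ha.2
        have h3 : a < 11 := by omega
        interval_cases a <;> first
          | (simp; done)
          | (exfalso; revert h2; norm_num)
    have hc := Finset.card_le_card hsub
    have hc1 := Finset.card_union_le P (({2, 3, 5, 7} : Finset ℕ) ∪ Finset.Ico (x + 1 - 14) (x + 1))
    have hc2 := Finset.card_union_le ({2, 3, 5, 7} : Finset ℕ) (Finset.Ico (x + 1 - 14) (x + 1))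
    have hc3 : ({2, 3, 5, 7} : Finset ℕ).card = 4 := by decide
    rw [Nat.card_Ico] at hc2
    omega
  have hinj : Set.InjOn (fun z : ℕ × ℕ => z.1 + g T (z.1 % 210) z.2) ((P ×ˢ range 4 : Finset _) : Set _) := by
    rintro ⟨a, j⟩ ha ⟨b, k⟩ hb hab
    rw [Finset.mem_coe, Finset.mem_product] at ha hb
    simp only [Finset.mem_range] at ha hb hab
    have ha1 := hok (a % 210) (Nat.mod_lt _ (by norm_num)) (gcd_one (hP a ha.1).1 (hP a ha.1).2) j ha.2
    have hb1 := hok (b % 210) (Nat.mod_lt _ (by norm_num)) (gcd_one (hP b hb.1).1 (hP b hb.1).2) k hb.2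
    have e : (a % 210 + g T (a % 210) j) % 210 = (b % 210 + g T (b % 210) k) % 210 := by omega
    have e2 := ha1.1
    rw [e, hb1.1] at e2
    obtain ⟨e3, e4⟩ := Prod.mk.inj e2
    rw [e3, e4] at hab
    have : a = b := by omega
    rw [this, e4]
  have hsub : (P ×ˢ range 4).image (fun z : ℕ × ℕ => z.1 + g T (z.1 % 210) z.2) ⊆
      (range (x + 1)).filter (fun n => Gd n) := by
    intro n hn
    rw [Finset.mem_image] at hn
    obtain ⟨⟨a, j⟩, hz, rfl⟩ := hn
    rw [Finset.mem_product] at hz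
    simp only [Finset.mem_range] at hz
    have ha1 := hok (a % 210) (Nat.mod_lt _ (by norm_num)) (gcd_one (hP a hz.1).1 (hP a hz.1).2) j hz.2
    have hr : a < x + 1 - 14 := Finset.mem_range.1 (Finset.mem_filter.1 hz.1).1
    have hm := hM _ ha1.2
    rw [Finset.mem_filter, Finset.mem_range]
    exact ⟨by simp only; omega, hG _ _ (hP a hz.1).1 ha1.2⟩
  have hc := Finset.card_le_card hsub
  rw [Finset.card_image_of_injOn hinj, Finset.card_product, Finset.card_range] at hc
  omega

open Classical in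
theorem upper (Pm Gd : ℕ → Prop) (h : ∀ n, Gd n → ∃ q : ℕ, q.Prime ∧ q < n ∧ Pm (n - q)) (x : ℕ) :
    ((range (x + 1)).filter (fun n => Gd n)).card ≤
      ((Ico 1 x).filter (fun m => Pm m)).card * Nat.primeCounting x := by
  have hpi : Nat.primeCounting x = ((range (x + 1)).filter Nat.Prime).card := by
    rw [Nat.primeCounting, Nat.primeCounting', Nat.count_eq_card_filter_range]
  rw [hpi, ← Finset.card_product]
  refine le_trans (Finset.card_le_card ?_)
    (Finset.card_image_le (s := ((Ico 1 x).filter (fun m => Pm m)) ×ˢ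
      ((range (x + 1)).filter Nat.Prime)) (f := fun z : ℕ × ℕ => z.1 + z.2))
  intro n hn
  rw [Finset.mem_filter, Finset.mem_range] at hn
  obtain ⟨hn1, hn2⟩ := hn
  obtain ⟨q, hq, hqn, hqp⟩ := h n hn2
  rw [Finset.mem_image]
  refine ⟨(n - q, q), ?_, by simp only; omega⟩
  rw [Finset.mem_product, Finset.mem_filter, Finset.mem_filter, Finset.mem_Ico, Finset.mem_range]
  have := hq.two_le
  refine ⟨⟨?_, hqp⟩, ?_, hq⟩
  · simp only; omega
  · simp only; omega

/-- The assertion of Q1 for `n`: some prime `q < n` makes `2 p(n - q) + 1` prime. -/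
def HoldsQ1 (n : ℕ) : Prop := ∃ q : ℕ, q.Prime ∧ q < n ∧ (2 * p (n - q) + 1).Prime

/-- The assertion of Q2 for `n`: some prime `q < n` makes `2 p(n - q) - 1` prime. -/
def HoldsQ2 (n : ℕ) : Prop := ∃ q : ℕ, q.Prime ∧ q < n ∧ (2 * p (n - q) - 1).Prime

open Classical in
/-- Let `G(x)` be the number of `n ≤ x` for which the assertion of Q1 (Q2) holds, and let `M(x)` be the
number of `m`, `1 ≤ m < x`, for which `2 p(m) + 1` (`2 p(m) - 1`) is prime. Then
`4 π(x) - 72 ≤ G(x) ≤ M(x) π(x)` for every `x`. -/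
theorem result (x : ℕ) :
    (4 * Nat.primeCounting x ≤ ((range (x + 1)).filter (fun n => HoldsQ1 n)).card + 72 ∧
      ((range (x + 1)).filter (fun n => HoldsQ1 n)).card ≤
        ((Ico 1 x).filter (fun m => (2 * p m + 1).Prime)).card * Nat.primeCounting x) ∧
    (4 * Nat.primeCounting x ≤ ((range (x + 1)).filter (fun n => HoldsQ2 n)).card + 72 ∧
      ((range (x + 1)).filter (fun n => HoldsQ2 n)).card ≤
        ((Ico 1 x).filter (fun m => (2 * p m - 1).Prime)).card * Nat.primeCounting x) := by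
  have u1 := upper (fun m => (2 * p m + 1).Prime) HoldsQ1 (fun n hn => hn) x
  have u2 := upper (fun m => (2 * p m - 1).Prime) HoldsQ2 (fun n hn => hn) x
  refine ⟨⟨?_, by convert u1⟩, ?_, by convert u2⟩
  · refine lower T1 R1 _ ok1 (by decide) HoldsQ1 (fun q m hq hm => ?_) x
    have h0 : 0 < m := by
      simp only [List.mem_cons, List.not_mem_nil, or_false] at hm
      omega
    refine ⟨q, hq, by omega, ?_⟩
    rw [Nat.add_sub_cancel_left]
    simp only [List.mem_cons, List.not_mem_nil, or_false] at hm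
    rcases hm with rfl | rfl | rfl | rfl | rfl | rfl | rfl
    · rw [p1]; norm_num
    · rw [p2]; norm_num
    · rw [p3]; norm_num
    · rw [p4]; norm_num
    · rw [p6]; norm_num
    · rw [p7]; norm_num
    · rw [p9]; norm_num
  · refine lower T2 R2 _ ok2 (by decide) HoldsQ2 (fun q m hq hm => ?_) x
    have h0 : 0 < m := by
      simp only [List.mem_cons, List.not_mem_nil, or_false] at hm
      omega
    refine ⟨q, hq, by omega, ?_⟩
    rw [Nat.add_sub_cancel_left]
    simp only [List.mem_cons, List.not_mem_nil, or_false] at hm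
    rcases hm with rfl | rfl | rfl | rfl | rfl | rfl | rfl | rfl
    · rw [p2]; norm_num
    · rw [p3]; norm_num
    · rw [p5]; norm_num
    · rw [p7]; norm_num
    · rw [p8]; norm_num
    · rw [p9]; norm_num
    · rw [p10]; norm_num
    · rw [p14]; norm_num

end Pool.Agent.Results.MP_d719e6_nt.CountingBounds
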